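import Pool.Agent.W622.BK.Stm

/-! # Bloch-Kato Lie algebras, part CON: contraction with `u` -/

set_option autoImplicit false

namespace Pool.Agent.W924.BK

open Module Pool.Agent.W622.BK

universe u

theorem t_CON : Pool.Agent.W622.BK.S_CON.{u} := by
  intro hA k _ E _ _ R X u n
  induction n with
  | zero =>
    intro ω _ hω
    have h1 : ∀ e, one k E (cur k E ω e) ∈ X := fun e => hω.1 e
    have h2 : InR R (cc k E ω) := hω.2
    show one k E (cur k E ω u) ∈ Nn R X u
    have hr : (cc k E ω).compr₂ (ev0 k E).toLinearMap ∈ R := h2 _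
    have he : ∀ e, (cc k E ω).compr₂ (ev0 k E).toLinearMap e = one k E (cur k E ω e) := by
      intro e
      rfl
    refine ⟨(cc k E ω).compr₂ (ev0 k E).toLinearMap, ⟨hr, fun e => ?_⟩, ?_⟩
    · rw [he]
      exact h1 e
    · exact he u
  | succ n ih =>
    intro ω hR hω
    have h1 : ∀ e, cur k E ω e ∈ D R X (n + 2) := fun e => hω.1 e
    have h3 := (hA k E R X (n + 1) ω hR hω).2
    refine ⟨fun e => ?_, (h1 u).2⟩
    have h4 : cur k E (cur k E ω u) e = - cur k E (cur k E ω e) u := h3 u e
    rw [h4]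
    exact Submodule.neg_mem _ (ih (cur k E ω e) hR (h1 e))

end Pool.Agent.W924.BK
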